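import Mathlib

/-!
Ramsey repeated degree property: definitions.

A red/blue colouring of the edges of the complete graph on `Fin n` is given by its red graph `R`;
the blue graph is the complement `Rᶜ`.
-/

namespace Pool.Agent.RepDeg

/-- `f` is a monochromatic copy of `G` in the colouring of the complete graph on `Fin n` whose red
graph is `R` (and whose blue graph is the complement of `R`): `f` is injective and maps all edges of
`G` to red edges, or all edges of `G` to blue edges. -/
def MonoCopy {k n : ℕ} (G : SimpleGraph (Fin k)) (R : SimpleGraph (Fin n)) (f : Fin k → Fin n) :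
    Prop :=
  Function.Injective f ∧
    ((∀ a b, G.Adj a b → R.Adj (f a) (f b)) ∨ (∀ a b, G.Adj a b → Rᶜ.Adj (f a) (f b)))

open Classical in
/-- The red degree of a vertex. -/
noncomputable def redDeg {n : ℕ} (R : SimpleGraph (Fin n)) (v : Fin n) : ℕ :=
  (Finset.univ.filter (fun w => R.Adj v w)).card

/-- The Ramsey repeated degree property: for all large `n`, every red/blue colouring of the complete
graph on `n` vertices contains a monochromatic copy of `G` with two distinct vertices of the same
(red) degree in the coloured complete graph. -/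
def RamseyRepeatedDegree {k : ℕ} (G : SimpleGraph (Fin k)) : Prop :=
  ∃ N : ℕ, ∀ n : ℕ, N ≤ n → ∀ R : SimpleGraph (Fin n),
    ∃ f : Fin k → Fin n, MonoCopy G R f ∧
      ∃ a b : Fin k, a ≠ b ∧ redDeg R (f a) = redDeg R (f b)

/-- The complete graph on `Fin m` with the edge between the vertices `0` and `1` removed. -/
def completeMinusEdge (m : ℕ) : SimpleGraph (Fin m) where
  Adj i j := i ≠ j ∧ ¬ (i.val < 2 ∧ j.val < 2)
  symm := ⟨fun _ _ h => ⟨h.1.symm, fun h' => h.2 ⟨h'.2, h'.1⟩⟩⟩
  loopless := ⟨fun _ h => h.1 rfl⟩

end Pool.Agent.RepDeg
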