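import Mathlib

/-!
The finite table behind the colourings. Ten blocks; entry `1`: red between the blocks, `0`: blue,
`2`: half graph (red when the two indices add up to at least `M`). The diagonal entry is the colour
of the block itself.
-/

namespace Pool.Agent.RepDeg

/-- The type table. -/
def T : Fin 10 → Fin 10 → ℕ :=
  ![![1,0,0,0,0,0,2,0,0,1],
    ![0,1,0,0,0,0,0,1,1,2],
    ![0,0,1,0,0,2,0,0,1,1],
    ![0,0,0,1,0,0,1,1,2,1],
    ![0,0,0,0,1,1,0,2,1,1],
    ![0,0,2,0,1,1,0,1,1,1],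
    ![2,0,0,1,0,0,1,1,1,1],
    ![0,1,0,1,2,1,1,0,1,1],
    ![0,1,1,2,1,1,1,1,0,1],
    ![1,2,1,1,1,1,1,1,1,0]]

/-- The level of a block: the number of entries `1` in its row. -/
def c : Fin 10 → ℕ := ![2,3,3,4,4,5,5,6,7,8]

/-- A map to three classes. -/
def g : Fin 10 → Fin 3 := ![0,1,2,1,2,2,1,0,1,2]

theorem T_symm : ∀ i j, T i j = T j i := by decide

theorem T_diag : ∀ i, T i i = 0 ∨ T i i = 1 := by decide

theorem T_two : ∀ i, (Finset.univ.filter (fun j => T i j = 2)).card = 1 := by decide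

theorem T_one : ∀ i, (Finset.univ.filter (fun j => T i j = 1)).card = c i := by decide

theorem T_lev : ∀ i j, T i i = 0 → T j j = 1 → c j < c i := by decide

theorem T_eq : ∀ i j, c i = c j → T i i = T j j := by decide

theorem T_red : ∀ i j, i ≠ j → c i = c j → ∀ l, T l l = 1 → T i l = 0 ∨ T j l = 0 := by decide

theorem T_blue : ∀ i j, i ≠ j → c i = c j → ∀ l, T l l = 0 → T i l = 1 ∨ T j l = 1 := by decide

theorem g_red : ∀ l l', T l l = 0 → T l' l' = 0 → g l = g l' → l = l' := by decide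

theorem g_blue : ∀ i j, i ≠ j → c i = c j → ∀ l, T l l = 1 → T i l ≠ 1 → T j l ≠ 1 →
    ∀ l', T l' l' = 1 → T i l' ≠ 1 → T j l' ≠ 1 → g l = g l' → T l l' = 1 := by decide

end Pool.Agent.RepDeg
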