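import Mathlib
import Pool.Agent.RepDeg.Defs
import Pool.Agent.RepDeg.Table

namespace Pool.Agent.RepDeg

/-- The red relation between two points of the ten blocks (also used on the diagonal). -/
def rel (M : ℕ) (p q : Fin 10 × Fin M) : Prop :=
  T p.1 q.1 = 1 ∨ (T p.1 q.1 = 2 ∧ M ≤ p.2.val + q.2.val)

theorem rel_symm {M : ℕ} {p q : Fin 10 × Fin M} (h : rel M p q) : rel M q p := by
  unfold rel at *
  rw [T_symm q.1 p.1, Nat.add_comm q.2.val]
  exact h

/-- The red graph on the ten blocks. -/
def H (M : ℕ) : SimpleGraph (Fin 10 × Fin M) where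
  Adj p q := p ≠ q ∧ rel M p q
  symm := ⟨fun _ _ h => ⟨h.1.symm, rel_symm h.2⟩⟩
  loopless := ⟨fun _ h => h.1 rfl⟩

theorem card_thr (M x : ℕ) (hx : x < M) :
    (Finset.univ.filter (fun y : Fin M => M ≤ x + y.val)).card = x := by
  have h1 : (Finset.univ.filter (fun y : Fin M => M ≤ x + y.val)).card =
      ((Finset.range M).filter (fun y => M ≤ x + y)).card := by
    rw [Finset.card_filter, Finset.card_filter,
      Fin.sum_univ_eq_sum_range (fun y => if M ≤ x + y then 1 else 0) M]
  have h2 : (Finset.range M).filter (fun y => M ≤ x + y) = Finset.Ico (M - x) M := by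
    ext y
    simp only [Finset.mem_filter, Finset.mem_range, Finset.mem_Ico]
    omega
  rw [h1, h2, Nat.card_Ico]
  omega

open Classical in
theorem card_rel (M : ℕ) (p : Fin 10 × Fin M) :
    (Finset.univ.filter (fun q => rel M p q)).card = c p.1 * M + p.2.val := by
  have key : ∀ j : Fin 10, (∑ y : Fin M, if rel M p (j, y) then 1 else 0) =
      (if T p.1 j = 1 then 1 else 0) * M + (if T p.1 j = 2 then 1 else 0) * p.2.val := by
    intro j
    by_cases h1 : T p.1 j = 1
    · have : ∀ y : Fin M, rel M p (j, y) := fun y => Or.inl h1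
      simp [this, h1]
    · by_cases h2 : T p.1 j = 2
      · have : ∀ y : Fin M, rel M p (j, y) ↔ M ≤ p.2.val + y.val := by
          intro y
          simp [rel, h2]
        simp only [this]
        rw [← Finset.card_filter, card_thr M p.2.val p.2.isLt]
        simp [h2]
      · have : ∀ y : Fin M, ¬ rel M p (j, y) := by
          intro y
          simp [rel, h1, h2]
        simp [this, h1, h2]
  rw [Finset.card_filter, Fintype.sum_prod_type]
  rw [Finset.sum_congr rfl (fun j _ => key j), Finset.sum_add_distrib, ← Finset.sum_mul,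
    ← Finset.sum_mul, ← Finset.card_filter, ← Finset.card_filter, T_one, T_two, one_mul]

open Classical in
theorem card_adj (M : ℕ) (p : Fin 10 × Fin M) :
    (Finset.univ.filter (fun q => (H M).Adj p q)).card + T p.1 p.1 = c p.1 * M + p.2.val := by
  rw [← card_rel M p]
  rcases T_diag p.1 with h | h
  · rw [h, Nat.add_zero]
    congr 1
    ext q
    simp only [Finset.mem_filter, Finset.mem_univ, true_and]
    refine ⟨fun hq => hq.2, fun hq => ⟨?_, hq⟩⟩
    rintro rfl
    unfold rel at hq
    omega
  · rw [h]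
    have hp : p ∈ Finset.univ.filter (fun q => rel M p q) := by
      simp only [Finset.mem_filter, Finset.mem_univ, true_and]
      exact Or.inl h
    rw [← Finset.card_erase_add_one hp]
    congr 2
    ext q
    simp only [Finset.mem_filter, Finset.mem_univ, true_and, Finset.mem_erase]
    exact ⟨fun hq => ⟨hq.1.symm, hq.2⟩, fun hq => ⟨hq.1.symm, hq.2⟩⟩

/-- Two distinct points of the same degree lie in different blocks of the same level. -/
theorem same_deg {M : ℕ} {p q : Fin 10 × Fin M} (hpq : p ≠ q) {d : ℕ}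
    (h1 : d + T p.1 p.1 = c p.1 * M + p.2.val) (h2 : d + T q.1 q.1 = c q.1 * M + q.2.val) :
    p.1 ≠ q.1 ∧ c p.1 = c q.1 := by
  have hp := p.2.isLt
  have hq := q.2.isLt
  have hc : c p.1 = c q.1 := by
    rcases lt_trichotomy (c p.1) (c q.1) with h | h | h
    · exfalso
      obtain ⟨e, he⟩ := Nat.exists_eq_add_of_lt h
      rw [he] at h2
      have h3 : (c p.1 + e + 1) * M = c p.1 * M + e * M + M := by ring
      have h4 : 0 ≤ e * M := Nat.zero_le _
      rcases T_diag p.1 with hd | hd
      · rcases T_diag q.1 with hd' | hd'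
        · omega
        · have := T_lev p.1 q.1 hd hd'
          omega
      · rcases T_diag q.1 with hd' | hd' <;> omega
    · exact h
    · exfalso
      obtain ⟨e, he⟩ := Nat.exists_eq_add_of_lt h
      rw [he] at h1
      have h3 : (c q.1 + e + 1) * M = c q.1 * M + e * M + M := by ring
      have h4 : 0 ≤ e * M := Nat.zero_le _
      rcases T_diag q.1 with hd | hd
      · rcases T_diag p.1 with hd' | hd'
        · omega
        · have := T_lev q.1 p.1 hd hd'
          omega
      · rcases T_diag p.1 with hd' | hd' <;> omega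
  refine ⟨fun h => hpq ?_, hc⟩
  have h5 : p.2.val = q.2.val := by
    rw [h] at h1
    omega
  exact Prod.ext h (Fin.ext h5)

/-- No red clique of size four in the common red neighbourhood. -/
theorem no_red {M : ℕ} {p q : Fin 10 × Fin M} (hne : p.1 ≠ q.1) (hc : c p.1 = c q.1)
    {β : Type} (s : Finset β) (z : β → Fin 10 × Fin M)
    (h1 : ∀ w ∈ s, rel M p (z w)) (h2 : ∀ w ∈ s, rel M q (z w))
    (h3 : ∀ w ∈ s, ∀ w' ∈ s, w ≠ w' → rel M (z w) (z w')) : s.card ≤ 3 := by
  have hb : ∀ w ∈ s, T (z w).1 (z w).1 = 0 := by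
    intro w hw
    rcases T_diag (z w).1 with h | h
    · exact h
    · exfalso
      have e1 := h1 w hw
      have e2 := h2 w hw
      unfold rel at e1 e2
      rcases T_red p.1 q.1 hne hc (z w).1 h with h' | h' <;> omega
  have hinj : ∀ w ∈ s, ∀ w' ∈ s, g (z w).1 = g (z w').1 → w = w' := by
    intro w hw w' hw' hg
    by_contra hww
    have e1 := g_red _ _ (hb w hw) (hb w' hw') hg
    have e2 := h3 w hw w' hw' hww
    unfold rel at e2
    have e3 := hb w hw
    rw [← e1] at e2
    omega
  have := Finset.card_le_card_of_injOn (s := s) (t := (Finset.univ : Finset (Fin 3)))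
    (fun w => g (z w).1) (fun _ _ => Finset.mem_coe.2 (Finset.mem_univ _))
    (fun w hw w' hw' h => hinj w hw w' hw' h)
  simpa using this

/-- No blue clique of size four in the common blue neighbourhood. -/
theorem no_blue {M : ℕ} {p q : Fin 10 × Fin M} (hne : p.1 ≠ q.1) (hc : c p.1 = c q.1)
    {β : Type} (s : Finset β) (z : β → Fin 10 × Fin M)
    (h1 : ∀ w ∈ s, ¬ rel M p (z w)) (h2 : ∀ w ∈ s, ¬ rel M q (z w))
    (h3 : ∀ w ∈ s, ∀ w' ∈ s, w ≠ w' → ¬ rel M (z w) (z w')) : s.card ≤ 3 := by
  have hb : ∀ w ∈ s, T (z w).1 (z w).1 = 1 := by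
    intro w hw
    rcases T_diag (z w).1 with h | h
    · exfalso
      rcases T_blue p.1 q.1 hne hc (z w).1 h with h' | h'
      · exact h1 w hw (Or.inl h')
      · exact h2 w hw (Or.inl h')
    · exact h
  have hinj : ∀ w ∈ s, ∀ w' ∈ s, g (z w).1 = g (z w').1 → w = w' := by
    intro w hw w' hw' hg
    by_contra hww
    apply h3 w hw w' hw' hww
    exact Or.inl (g_blue p.1 q.1 hne hc _ (hb w hw) (fun h => h1 w hw (Or.inl h))
      (fun h => h2 w hw (Or.inl h)) _ (hb w' hw') (fun h => h1 w' hw' (Or.inl h))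
      (fun h => h2 w' hw' (Or.inl h)) hg)
  have := Finset.card_le_card_of_injOn (s := s) (t := (Finset.univ : Finset (Fin 3)))
    (fun w => g (z w).1) (fun _ _ => Finset.mem_coe.2 (Finset.mem_univ _))
    (fun w hw w' hw' h => hinj w hw w' hw' h)
  simpa using this

end Pool.Agent.RepDeg
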